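import Mathlib
import Pool.Agent.Z894.CP.Stm2

/-!
The final theorem of project MB from the main theorem and the combinatorial statement
(adaptation of `Pool.Agent.Y484.CP.Final` and `Pool.Agent.Y87.LX.Fin10`).
-/

set_option autoImplicit false

open MvPolynomial

namespace Pool.Agent.Y681.MB

open Pool.Agent.TH922.KC Pool.Agent.Z894.CP

/-- **The final theorem.** -/
theorem mfinal_holds (h1 : Pool.Agent.Z894.CP.MMain) (h2 : Pool.Agent.Z894.CP.MComb) :
    Pool.Agent.Z894.CP.MFinal := by
  intro n r hn0 d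
  classical
  obtain ⟨bad1, hbad1, hmain1⟩ := main n r d
  obtain ⟨bad2, hbad2, hmain2⟩ := h1 n r hn0 d
  refine ⟨fun j => bad1 j * bad2 j, fun j => mul_ne_zero (hbad1 j) (hbad2 j), ?_⟩
  intro f hf hfb I hI hIp hdim hfI l Q hl hQ hQp halt
  have hfb1 : ∀ j, MvPolynomial.eval (fun x => MvPolynomial.coeff x.2.1 (f x.1)) (bad1 j) ≠ 0 := by
    intro j h
    apply hfb j
    rw [map_mul, h, zero_mul]
  have hfb2 : ∀ j, MvPolynomial.eval (fun x => MvPolynomial.coeff x.2.1 (f x.1)) (bad2 j) ≠ 0 := by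
    intro j h
    apply hfb j
    rw [map_mul, h, mul_zero]
  refine eventually_dvd Q hQ _ ?_
  intro p s hp hs hps
  have hpQ : p ∣ Q := (dvd_pow_self p hs).trans hps
  have hlp := hQp p hp hpQ
  by_cases hA : ∃ i j, p ^ (n * (s + j)) ∣ d i ∧ n ≤ p ^ (j + 1) - 1
  · obtain ⟨i, j, hi, hj⟩ := hA
    have hcard : 1 ≤ (Finset.univ.filter fun i => p ^ (n * (s + j)) ∣ d i).card :=
      Finset.card_pos.mpr ⟨i, Finset.mem_filter.mpr ⟨Finset.mem_univ _, hi⟩⟩
    obtain ⟨K, hK⟩ := hmain1 f hf hfb1 I hI hIp hdim hfI p (s + j) j hp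
      (hj.trans (Nat.le_mul_of_pos_left _ hcard))
    refine ⟨K, fun k hk => ?_⟩
    have e1 := hK k hk
    have e2 : ((p ^ (s + j) : ℕ) : ℤ) = ((p ^ j : ℕ) : ℤ) * ((p ^ s : ℕ) : ℤ) := by
      push_cast; ring
    rw [e2] at e1
    have e3 : ((p ^ j : ℕ) : ℤ) ≠ 0 := by exact_mod_cast (pow_pos hp.pos j).ne'
    exact (mul_dvd_mul_iff_left e3).mp e1
  · push Not at hA
    have hd0 : ∀ i, d i ≠ 0 := by
      intro i h
      have e1 := hA i n (by rw [h]; exact dvd_zero _)
      have e2 : n + 1 < 2 ^ (n + 1) := Nat.lt_two_pow_self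
      have e3 : 2 ^ (n + 1) ≤ p ^ (n + 1) := Nat.pow_le_pow_left hp.two_le _
      omega
    have hfac : ∀ S : Finset (Fin r), (∏ i ∈ S, d i).factorization p
        = ∑ i ∈ S, (d i).factorization p := by
      intro S
      rw [Nat.factorization_prod (fun i _ => hd0 i), Finset.sum_apply']
    rcases halt with ⟨hnl, hdiv⟩ | ⟨m, B, a, ix, g, hB, hn2, hab, hblk, hinj, hgr⟩
    · have hv : ∀ i, (d i).factorization p < n * s := by
        intro i
        by_contra h
        push Not at h
        have e1 := hA i 0 ((hp.pow_dvd_iff_le_factorization (hd0 i)).mpr (by simpa using h))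
        rw [zero_add, pow_one] at e1
        omega
      have htot : (2 * n - 1) * s ≤ ∑ i, (d i).factorization p := by
        have e1 : p ^ (s * (2 * n - 1)) ∣ ∏ i, d i := by
          rw [pow_mul]
          exact (pow_dvd_pow_of_dvd hps _).trans hdiv
        have e2 := (hp.pow_dvd_iff_le_factorization
          (Finset.prod_ne_zero_iff.mpr fun i _ => hd0 i)).mp e1
        rw [hfac] at e2
        rw [mul_comm]
        exact e2
      obtain ⟨m, B, a, ix, g, hB, hab, hblk, hinj, hgr⟩ :=
        h2 r n s (fun i => (d i).factorization p) hn0 (Nat.pos_of_ne_zero hs) htot hv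
      refine hmain2 f hf hfb2 I hI hIp hdim hfI p s m B a ix g hp hs hB ?_ hab ?_ hinj ?_
      · have e1 : n ≤ p - 1 := by omega
        exact e1.trans (Nat.le_mul_of_pos_left _ (by omega))
      · intro b hb
        obtain ⟨e1, e2, e3⟩ := hblk b hb
        exact ⟨by omega, e2, (hp.pow_dvd_iff_le_factorization (hd0 _)).mpr e3,
          Nat.pos_of_ne_zero (hd0 _)⟩
      · intro c
        rw [hp.pow_dvd_iff_le_factorization (Finset.prod_ne_zero_iff.mpr fun i _ => hd0 i), hfac]
        exact hgr c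
    · refine hmain2 f hf hfb2 I hI hIp hdim hfI p s m B a ix g hp hs hB ?_ hab ?_ hinj ?_
      · exact hn2.trans (Nat.mul_le_mul_left _ (by omega))
      · intro b hb
        obtain ⟨e1, e2, e3⟩ := hblk b hb
        refine ⟨by omega, e2, ?_, Nat.pos_of_ne_zero (hd0 _)⟩
        rw [pow_mul]
        exact (pow_dvd_pow_of_dvd hps _).trans e3
      · exact fun c => hps.trans (hgr c)

end Pool.Agent.Y681.MB
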